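import Mathlib
import Pool.Agent.H89.Spike

set_option autoImplicit false

namespace Pool.Agent.Results.MP_89b2fa_an.Discont

open MeasureTheory Filter Topology Set Metric Real Pool.Agent.H89.Spike

section Defs

variable {X : Type*} [NormedAddCommGroup X] [InnerProductSpace ℝ X] [CompleteSpace X]
  [MeasureSpace X]

/-- `h ∈ C_0^∞(D)`. -/
def IsTest (D : Set X) (h : X → ℝ) : Prop :=
  ContDiff ℝ (⊤ : ℕ∞) h ∧ HasCompactSupport h ∧ tsupport h ⊆ D

/-- `g` is the weak gradient of `u` in `D`. -/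
def WeakGrad (D : Set X) (u : X → ℝ) (g : X → X) : Prop :=
  ∀ h, IsTest D h → ∀ v, ∫ x in D, (u x * fderiv ℝ h x v + inner ℝ (g x) v * h x) = 0

/-- `b ∈ L₂(D)`, and `u ∈ W₂¹(D) ∩ L_∞(D)`, with weak gradient `g`, solves
`-Δu + b·∇u = 0` in `D`. -/
def BddSol (D : Set X) (b : X → X) (u : X → ℝ) (g : X → X) : Prop :=
  MemLp b 2 (volume.restrict D) ∧ MemLp u ⊤ (volume.restrict D) ∧
    MemLp u 2 (volume.restrict D) ∧ MemLp g 2 (volume.restrict D) ∧ WeakGrad D u g ∧
    ∀ h, IsTest D h → ∫ x in D, inner ℝ (g x) (gradient h x + h x • b x) = 0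

/-- `u` agrees almost everywhere on `D` with a function continuous on `D`. -/
def AECont (D : Set X) (u : X → ℝ) : Prop :=
  ∃ w : X → ℝ, ContinuousOn w D ∧ u =ᵐ[volume.restrict D] w

end Defs

noncomputable def e (k : ℕ) : ℝ := (1 / 2) ^ k
noncomputable def a (k : ℕ) : ℝ := e k ^ 2 / 256
noncomputable def p (k : ℕ) : E := EuclideanSpace.single 0 (e k / 4)
noncomputable def Uk (k : ℕ) : E → ℝ := U (a k) (4 * log (a k)) (p k) 0
noncomputable def Vk (k : ℕ) : E → E := V (a k) (4 * log (a k)) (p k) 0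
noncomputable def Lk (k : ℕ) : E → ℝ := L (a k) (4 * log (a k)) (p k) 0
noncomputable def c (k : ℕ) (x : E) : ℝ := a k ^ 2 * m (a k) (4 * log (a k)) (‖x - p k‖ ^ 2) / e k
noncomputable abbrev μ : Measure E := volume.restrict (ball 0 (1 / 2))

lemma e_pos (k : ℕ) : 0 < e k := by unfold e; positivity
lemma e_le (k : ℕ) : e k ≤ 1 := pow_le_one₀ (by norm_num) (by norm_num)
lemma a_pos (k : ℕ) : 0 < a k := by have := e_pos k; unfold a; positivity
lemma a_le (k : ℕ) : a k ≤ e k / 256 := by unfold a; nlinarith [e_pos k, e_le k]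
lemma a_sq (k : ℕ) : a k ^ 2 ≤ e k / 256 := by nlinarith [a_le k, a_pos k, e_le k]
lemma p_norm (k : ℕ) : ‖p k‖ = e k / 4 := by
  simp [p, abs_of_pos (e_pos k)]
lemma he : HasSum e 2 := hasSum_geometric_two
lemma c_nonneg (k : ℕ) (x : E) : 0 ≤ c k x :=
  div_nonneg (mul_nonneg (sq_nonneg _) (m_nonneg _ _ _ (sq_nonneg _))) (e_pos k).le

lemma alog (k : ℕ) : -(e k / 4) ≤ 2 * a k * log (a k) := by
  have h := e_pos k
  have h1 := log_le_sub_one_of_pos (show 0 < 16 / e k by positivity)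
  have h2 : log (a k) = -2 * log (16 / e k) := by
    rw [show a k = ((16 / e k) ^ 2)⁻¹ by unfold a; field_simp; norm_num, log_inv, log_pow]
    push_cast; ring
  have h3 : 2 * a k * log (a k) = -(e k ^ 2 / 64) * log (16 / e k) := by rw [h2]; unfold a; ring
  have h4 : e k ^ 2 / 64 * (16 / e k) = e k / 4 := by field_simp; norm_num
  rw [h3]
  nlinarith [sq_nonneg (e k)]

lemma sep (j k : ℕ) (h : j ≠ k) : e k / 8 ≤ ‖p j - p k‖ := by
  have h1 : ‖p j - p k‖ = |e j - e k| / 4 := by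
    rw [p, p, ← PiLp.single_sub, PiLp.norm_single, ← sub_div, norm_eq_abs, abs_div]
    norm_num
  have h2 : ∀ i l : ℕ, i < l → e l ≤ e i / 2 := fun i l hl => by
    have := pow_le_pow_of_le_one (show (0 : ℝ) ≤ 1 / 2 by norm_num) (by norm_num)
      (Nat.succ_le_of_lt hl)
    unfold e; rw [pow_succ] at this; linarith
  rw [h1]
  rcases h.lt_or_gt with h | h
  · linarith [h2 j k h, le_abs_self (e j - e k), e_pos k]
  · linarith [h2 k j h, neg_abs_le (e j - e k), e_pos k]

lemma far (j k : ℕ) (h : j ≠ k) (x : E) (hx : ‖x - p k‖ < a k ^ 2) :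
    e k / 16 ≤ ‖x - p j‖ ∧ a j ^ 2 ≤ ‖x - p j‖ := by
  have h1 := sep j k h
  have h2 := sep k j h.symm
  rw [norm_sub_rev] at h2
  have h3 : ‖p j - p k‖ ≤ ‖x - p j‖ + ‖x - p k‖ := by
    rw [norm_sub_rev x (p j)]; exact norm_sub_le_norm_sub_add_norm_sub _ _ _
  constructor <;> linarith [a_sq j, a_sq k, e_pos j, e_pos k]

lemma c_int (k : ℕ) : Integrable (c k) μ ∧ ∫ x, ‖c k x‖ ∂μ ≤ K * e k := by
  have h0 := e_pos k
  obtain ⟨h1, h2⟩ := planar (a k) (4 * log (a k)) (a_pos k) (p k) (by linarith [p_norm k, e_le k])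
  refine ⟨(h1.const_mul _).div_const _, ?_⟩
  simp only [fun x => norm_of_nonneg (c_nonneg k x)]
  unfold c
  rw [integral_div, integral_const_mul, div_le_iff₀ h0]
  have hK : 0 ≤ K := by unfold K; positivity
  have h3 : -1 ≤ A (a k) (4 * log (a k)) 1 := by
    refine le_trans (le_min ?_ (by norm_num)) (G_ge _)
    unfold ta; rw [log_one]; linarith [alog k, e_le k]
  have ha := a_pos k
  calc _ ≤ a k ^ 2 * (K * (3 / a k)) := by
        gcongr
        exact h2.trans (by gcongr; linarith)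
    _ = K * (3 * a k) := by field_simp
    _ ≤ K * (e k * e k) := mul_le_mul_of_nonneg_left (by unfold a; nlinarith) hK
    _ = _ := by ring

lemma c_sum : (∀ᵐ x ∂μ, Summable fun k => c k x) ∧ Integrable (fun x => ∑' k, c k x) μ := by
  have := sumB c (fun k => (c_int k).1) (Summable.of_nonneg_of_le (fun k => by positivity)
    (fun k => (c_int k).2) (he.summable.mul_left K))
  exact ⟨this.1.mono fun x hx => hx.of_norm, this.2⟩

def Good (x : E) : Prop := x ∈ ball (0 : E) (1 / 2) ∧ (∀ k, x ≠ p k) ∧ Summable fun k => c k x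

lemma good : ∀ᵐ x ∂μ, Good x := by
  filter_upwards [ae_restrict_mem measurableSet_ball, ae_all_iff.mpr fun k =>
    ae_restrict_of_ae (s := ball (0 : E) (1 / 2)) (Measure.ae_ne volume (p k)), c_sum.1]
    with x h1 h2 h3 using ⟨h1, h2, h3⟩

lemma pt' (x : E) (hx : Good x) (k : ℕ) :
    ‖Vk k x‖ ^ 2 ≤ e k * c k x ∧ |Lk k x| ≤ e k * c k x ∧
    Lk k x ^ 2 ≤ 4 * (e k * c k x) * ‖Vk k x‖ ^ 2 ∧ ‖Vk k x‖ ≤ a k / ‖x - p k‖ ∧
    -(e k / 4) ≤ Uk k x ∧ Uk k x ≤ 2 ∧ (a k ^ 2 ≤ ‖x - p k‖ → Lk k x = 0 ∧ Uk k x ≤ 0) ∧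
    (‖x - p k‖ < a k ^ 2 → 1 ≤ e k * c k x ∧ 1 / a k ≤ ‖Vk k x‖) ∧
    (‖x - p k‖ ≤ a k ^ 2 * exp (-1 / a k) → 3 / 4 ≤ Uk k x) := by
  have h := pt (a k) (a_pos k) (by linarith [a_le k, e_le k]) (p k) x (hx.2.1 k) (by
    have := norm_sub_le x (p k)
    have := mem_ball_zero_iff.mp hx.1
    linarith [p_norm k, e_le k])
  have h0 : e k * c k x = a k ^ 2 * m (a k) (4 * log (a k)) (‖x - p k‖ ^ 2) := by
    have := e_pos k
    unfold c; field_simp
  rw [h0]
  exact ⟨h.1, h.2.1, h.2.2.1, h.2.2.2.1, (alog k).trans h.2.2.2.2.1, h.2.2.2.2.2⟩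

lemma bd (x : E) (hx : Good x) (k : ℕ) : |Uk k x| ≤ 2 * (e k + c k x) ∧
    ‖Vk k x‖ ≤ 2 * (e k + c k x) ∧ |Lk k x| ≤ 2 * (e k + c k x) := by
  obtain ⟨h1, h2, -, -, h5, h6, h7, h8, -⟩ := pt' x hx k
  have h0 := e_pos k
  have hc := c_nonneg k x
  have h9 : e k * c k x ≤ c k x := by nlinarith [e_le k]
  refine ⟨abs_le.mpr ⟨by linarith, ?_⟩, by linarith [amgm _ _ _ h0.le hc h1], by linarith⟩
  rcases le_or_gt (a k ^ 2) ‖x - p k‖ with h | h
  · linarith [(h7 h).2]
  · linarith [(h8 h).1]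

lemma sm (x : E) (hx : Good x) : Summable (fun k => Uk k x) ∧ Summable (fun k => Vk k x) ∧
    Summable (fun k => Lk k x) := by
  have := (he.summable.add hx.2.2).mul_left 2
  exact ⟨this.of_norm_bounded fun k => (bd x hx k).1, this.of_norm_bounded fun k => (bd x hx k).2.1,
    this.of_norm_bounded fun k => (bd x hx k).2.2⟩

lemma swap (F : ℕ → E → ℝ) (f : E → ℝ) (C : ℝ) (hm : ∀ k, AEStronglyMeasurable (F k) μ)
    (hb : ∀ x, Good x → ∀ k, |F k x| ≤ C * (e k + c k x)) (h0 : ∀ k, ∫ x, F k x ∂μ = 0)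
    (hs : ∀ x, Good x → HasSum (fun k => F k x) (f x)) : ∫ x, f x ∂μ = 0 := by
  have : IsFiniteMeasure μ := isFiniteMeasure_restrict.mpr measure_ball_lt_top.ne
  have := hasSum_integral_of_dominated_convergence (μ := μ) (F := F) (f := f)
    (fun k x => C * (e k + c k x)) hm (fun k => good.mono fun x hx => hb x hx k)
    (good.mono fun x hx => (he.summable.add hx.2.2).mul_left C)
    ((((integrable_const 2).add c_sum.2).const_mul C).congr (good.mono fun x hx =>
      ((he.add hx.2.2.hasSum).mul_left C).tsum_eq.symm)) (good.mono hs)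
  simp only [h0] at this
  exact this.unique hasSum_zero

noncomputable def uu (x : E) : ℝ := ∑' k, Uk k x
noncomputable def gg (x : E) : E := ∑' k, Vk k x
noncomputable def ll (x : E) : ℝ := ∑' k, Lk k x
noncomputable def bb (x : E) : E := (ll x / ‖gg x‖ ^ 2) • gg x

lemma g_sq (x : E) (hx : Good x) : ‖gg x‖ ^ 2 ≤ 2 * ∑' k, c k x := by
  have hT : 0 ≤ ∑' k, c k x := tsum_nonneg fun k => c_nonneg k x
  rcases (norm_nonneg (gg x)).eq_or_lt with h | h
  · rw [← h]; linarith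
  · have h1 := tsum_of_norm_bounded (f := fun k => Vk k x) (((he.mul_left (‖gg x‖ / 2)).add
      (hx.2.2.hasSum.div_const (‖gg x‖ / 2))).div_const 2) fun k =>
      amgm _ _ _ (by have := e_pos k; positivity) (by have := c_nonneg k x; positivity)
        ((pt' x hx k).1.trans (le_of_eq (by field_simp)))
    change ‖gg x‖ ≤ _ at h1
    have h2 : ‖gg x‖ ≤ (∑' k, c k x) / (‖gg x‖ / 2) := by linarith
    rw [le_div_iff₀ (by positivity)] at h2
    nlinarith

lemma out (x : E) (hx : Good x) (h : ∀ k, a k ^ 2 ≤ ‖x - p k‖) :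
    ll x = 0 ∧ uu x ≤ 0 ∧ |uu x| ≤ 3 := by
  refine ⟨by simp [ll, fun k => ((pt' x hx k).2.2.2.2.2.2.1 (h k)).1],
    tsum_nonpos fun k => ((pt' x hx k).2.2.2.2.2.2.1 (h k)).2, ?_⟩
  refine (tsum_of_norm_bounded (f := fun k => Uk k x) he fun k => ?_).trans (by norm_num)
  exact abs_le.mpr ⟨by linarith [(pt' x hx k).2.2.2.2.1, e_pos k],
    by linarith [((pt' x hx k).2.2.2.2.2.2.1 (h k)).2, e_pos k]⟩

lemma ins (x : E) (hx : Good x) (k : ℕ) (h : ‖x - p k‖ < a k ^ 2) :
    ll x = Lk k x ∧ |uu x - Uk k x| ≤ 1 / 2 ∧ ‖Vk k x‖ ≤ 2 * ‖gg x‖ ∧ 0 < ‖Vk k x‖ := by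
  have ek := e_pos k
  have ak := a_pos k
  have h8 := ((pt' x hx k).2.2.2.2.2.2.2.1 h).2
  refine ⟨tsum_eq_single k fun j hj => ((pt' x hx j).2.2.2.2.2.2.1 (far j k hj x h).2).1, ?_, ?_,
    lt_of_lt_of_le (by positivity) h8⟩
  · rw [uu, (sm x hx).1.tsum_eq_add_tsum_ite k, add_sub_cancel_left, ← norm_eq_abs]
    refine (tsum_of_norm_bounded (he.div_const 4) fun j => ?_).trans (show (2 : ℝ) / 4 ≤ 1 / 2 by norm_num)
    split_ifs with hj
    · simp; linarith [e_pos j]
    · exact abs_le.mpr ⟨(pt' x hx j).2.2.2.2.1,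
        by linarith [((pt' x hx j).2.2.2.2.2.2.1 (far j k hj x h).2).2, e_pos j]⟩
  · have h1 : ‖gg x - Vk k x‖ ≤ 2 / e k := by
      rw [gg, (sm x hx).2.1.tsum_eq_add_tsum_ite k, add_sub_cancel_left]
      refine tsum_of_norm_bounded (he.div_const (e k)) fun j => ?_
      have ej := e_pos j
      split_ifs with hj
      · simp; positivity
      · refine (pt' x hx j).2.2.2.1.trans ?_
        have := (far j k hj x h).1
        rw [div_le_div_iff₀ (by linarith) ek]
        nlinarith [a_le j]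
    have h2 : 4 / e k ≤ 1 / a k := by
      rw [div_le_div_iff₀ ek ak]; linarith [a_le k]
    have h3 := norm_sub_norm_le (Vk k x) (gg x)
    rw [norm_sub_rev] at h3
    have : 4 / e k = 2 * (2 / e k) := by ring
    linarith

lemma b_prop (x : E) (hx : Good x) :
    inner ℝ (gg x) (bb x) = ll x ∧ ‖bb x‖ ^ 2 ≤ 16 * ∑' k, c k x ∧ |uu x| ≤ 3 := by
  have hT : 0 ≤ ∑' k, c k x := tsum_nonneg fun k => c_nonneg k x
  by_cases h : ∀ k, a k ^ 2 ≤ ‖x - p k‖
  · obtain ⟨h1, -, h3⟩ := out x hx h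
    exact ⟨by simp [bb, h1], by simp [bb, h1, hT], h3⟩
  · push Not at h
    obtain ⟨k, hk⟩ := h
    obtain ⟨h1, h2, h3, h4⟩ := ins x hx k hk
    obtain ⟨-, -, h5, -, h6, h7, -⟩ := pt' x hx k
    have h8 : 0 < ‖gg x‖ := by linarith
    have h9 : c k x ≤ ∑' k, c k x := hx.2.2.le_tsum k fun j _ => c_nonneg j x
    refine ⟨?_, ?_, ?_⟩
    · rw [bb, inner_smul_right, real_inner_self_eq_norm_sq]; field_simp
    · have : ‖bb x‖ ^ 2 = Lk k x ^ 2 / ‖gg x‖ ^ 2 := by
        rw [bb, norm_smul, mul_pow, norm_eq_abs, sq_abs, h1]; field_simp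
      rw [this, div_le_iff₀ (by positivity)]
      have hc := c_nonneg k x
      calc _ ≤ _ := h5
        _ ≤ 4 * (1 * ∑' k, c k x) * (2 * ‖gg x‖) ^ 2 := by gcongr; exact e_le k
        _ = _ := by ring
    · rw [abs_le] at h2 ⊢
      constructor <;> linarith [e_le k]

lemma ex (O : Set E) (hO : IsOpen O) (hn : O.Nonempty) (hs : O ⊆ ball 0 (1 / 2)) (P : E → Prop)
    (hP : ∀ᵐ x ∂μ, P x) : ∃ x ∈ O, P x := by
  have h1 : ∀ᵐ x ∂(volume.restrict O), P x := ae_restrict_of_ae_restrict_of_subset hs hP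
  have : NeZero (volume.restrict O) := ⟨by simpa using (hO.measure_pos volume hn).ne'⟩
  obtain ⟨x, hx⟩ := ((ae_restrict_mem hO.measurableSet).and h1).exists
  exact ⟨x, hx⟩

theorem result : ∃ (R : ℝ) (b g : EuclideanSpace ℝ (Fin 2) → EuclideanSpace ℝ (Fin 2))
    (u : EuclideanSpace ℝ (Fin 2) → ℝ), 0 < R ∧ BddSol (ball 0 R) b u g ∧
    ¬ AECont (ball 0 R) u := by
  have : IsFiniteMeasure μ := isFiniteMeasure_restrict.mpr measure_ball_lt_top.ne
  have mU : ∀ k, Measurable (Uk k) := fun k => (meas _ _ _).1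
  have mV : ∀ k, Measurable (Vk k) := fun k => (meas _ _ _).2.1
  have mL : ∀ k, Measurable (Lk k) := fun k => (meas _ _ _).2.2
  have mu : Measurable uu := Measurable.tsum mU
  have mg : Measurable gg := Measurable.tsum mV
  have ml : Measurable ll := Measurable.tsum mL
  have mb : Measurable bb := by unfold bb; fun_prop
  have hu : MemLp uu ⊤ μ :=
    memLp_top_of_bound mu.aestronglyMeasurable 3 (good.mono fun x hx => (b_prop x hx).2.2)
  refine ⟨1 / 2, bb, gg, uu, by norm_num, ⟨?_, hu, hu.mono_exponent le_top, ?_,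
    forall₂_and.mp fun h ⟨hh, hs, ht⟩ => ?_⟩, ?_⟩
  · exact (memLp_two_iff_integrable_sq_norm mb.aestronglyMeasurable).mpr
      ((c_sum.2.const_mul 16).mono' (mb.norm.pow_const 2).aestronglyMeasurable
        (good.mono fun x hx => by simpa using (b_prop x hx).2.1))
  · exact (memLp_two_iff_integrable_sq_norm mg.aestronglyMeasurable).mpr
      ((c_sum.2.const_mul 2).mono' (mg.norm.pow_const 2).aestronglyMeasurable
        (good.mono fun x hx => by simpa using g_sq x hx))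
  · have hh1 : ContDiff ℝ 1 h := hh.of_le (by exact_mod_cast le_top)
    obtain ⟨C, hC, hb⟩ := test_bound h hh1 hs
    have c0 := hh1.continuous.measurable
    have c1 := hh1.continuous_fderiv (by simp)
    have hp : ∀ k, ‖p k‖ ≤ 1 / 2 := fun k => by linarith [p_norm k, e_le k]
    have ha : ∀ k, a k ≤ 1 := fun k => by linarith [a_le k, e_le k]
    refine ⟨fun v => swap (fun k x => Uk k x * fderiv ℝ h x v + inner ℝ (Vk k x) v * h x) _
      (4 * (C * ‖v‖)) (fun k => ?_) (fun x hx k => ?_)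
      (fun k => W_lim _ _ (a_pos k) (ha k) _ (hp k) v h hh1 hs ht) (fun x hx => ?_),
      swap (fun k x => fderiv ℝ h x (Vk k x) + Lk k x * h x) _ (4 * C) (fun k => ?_)
      (fun x hx k => ?_) (fun k => E_lim _ _ (a_pos k) (ha k) _ (hp k) h hh1 hs ht)
      (fun x hx => ?_)⟩
    · exact (((mU k).mul (c1.clm_apply continuous_const).measurable).add
        (((mV k).inner_const).mul c0)).aestronglyMeasurable
    · obtain ⟨b1, b2, -⟩ := bd x hx k
      have c1 : |fderiv ℝ h x v| ≤ C * ‖v‖ :=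
        ((fderiv ℝ h x).le_opNorm v).trans (by gcongr; exact (hb x).2)
      have c2 : |inner ℝ (Vk k x) v| ≤ 2 * (e k + c k x) * ‖v‖ :=
        (abs_real_inner_le_norm _ _).trans (by gcongr)
      have c5 := (abs_nonneg _).trans b1
      refine (abs_add_le _ _).trans ?_
      rw [abs_mul, abs_mul]
      have c3 := mul_le_mul b1 c1 (abs_nonneg _) c5
      have c4 := mul_le_mul c2 (hb x).1 (abs_nonneg _) (by positivity)
      linarith
    · have := ((sm x hx).2.1.hasSum.mapL (innerSL ℝ v))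
      simp only [innerSL_apply_apply, real_inner_comm _ v] at this
      exact ((sm x hx).1.hasSum.mul_right _).add (this.mul_right _)
    · refine AEStronglyMeasurable.add ?_ ((mL k).mul c0).aestronglyMeasurable
      exact (isBoundedBilinearMap_apply (𝕜 := ℝ) (E := E) (F := ℝ)).continuous.comp_aestronglyMeasurable
        (c1.aestronglyMeasurable.prodMk (mV k).aestronglyMeasurable)
    · obtain ⟨-, b2, b3⟩ := bd x hx k
      have c5 := (abs_nonneg _).trans b3
      have c1 : |fderiv ℝ h x (Vk k x)| ≤ C * (2 * (e k + c k x)) :=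
        ((fderiv ℝ h x).le_opNorm _).trans (by gcongr; exact (hb x).2)
      refine (abs_add_le _ _).trans ?_
      rw [abs_mul]
      have c4 := mul_le_mul b3 (hb x).1 (abs_nonneg _) c5
      linarith
    · have e1 : inner ℝ (gg x) (gradient h x + h x • bb x) = fderiv ℝ h x (gg x) + ll x * h x := by
        rw [inner_add_right, inner_smul_right, (b_prop x hx).1, real_inner_comm, gradient,
          InnerProductSpace.toDual_symm_apply, mul_comm]
      rw [e1]
      exact ((sm x hx).2.1.hasSum.mapL (fderiv ℝ h x)).add ((sm x hx).2.2.hasSum.mul_right _)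
  · rintro ⟨w, hw, hae⟩
    obtain ⟨δ, hδ, hd⟩ := Metric.continuousAt_iff.mp
      (hw.continuousAt (ball_mem_nhds _ (by norm_num))) (1 / 8) (by norm_num)
    obtain ⟨k, hk⟩ := exists_pow_lt_of_lt_one hδ (show (1 / 2 : ℝ) < 1 by norm_num)
    change e k < δ at hk
    have ek := e_pos k
    have ak := a_pos k
    have hex : a k ^ 2 * exp (-1 / a k) ≤ a k ^ 2 := by
      have : exp (-1 / a k) ≤ 1 := exp_le_one_iff.mpr (by rw [neg_div]; simp [ak.le])
      nlinarith [sq_nonneg (a k)]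
    have n1 : ∀ x ∈ ball (p k) (a k ^ 2 * exp (-1 / a k)), ‖x‖ < e k / 2 := fun x hx => by
      have := norm_sub_norm_le x (p k)
      rw [mem_ball_iff_norm] at hx
      linarith [p_norm k, a_sq k]
    have n2 : ∀ x ∈ ball (-p k) (e k / 8), ‖x‖ < e k / 2 := fun x hx => by
      have := norm_sub_norm_le x (-p k)
      rw [mem_ball_iff_norm] at hx
      rw [norm_neg] at this
      linarith [p_norm k]
    obtain ⟨x, hx, gx, ex1⟩ := ex (ball (p k) (a k ^ 2 * exp (-1 / a k))) isOpen_ball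
      ⟨p k, mem_ball_self (by positivity)⟩
      (fun x hx => mem_ball_zero_iff.mpr (by linarith [n1 x hx, e_le k])) _ (good.and hae)
    obtain ⟨y, hy, gy, ey1⟩ := ex (ball (-p k) (e k / 8)) isOpen_ball
      ⟨-p k, mem_ball_self (by positivity)⟩
      (fun x hx => mem_ball_zero_iff.mpr (by linarith [n2 x hx, e_le k])) _ (good.and hae)
    have d1 := hd (x := x) (by rw [dist_zero_right]; linarith [n1 x hx])
    have d2 := hd (x := y) (by rw [dist_zero_right]; linarith [n2 y hy])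
    rw [mem_ball_iff_norm] at hx hy
    have u1 := (ins x gx k (hx.trans_le hex)).2.1
    have u2 := (pt' x gx k).2.2.2.2.2.2.2.2 hx.le
    have u3 := (out y gy fun j => by
      have t1 := PiLp.norm_apply_le (y - -p k) 0
      have t2 := PiLp.norm_apply_le (y - p j) 0
      simp only [p, PiLp.sub_apply, PiLp.neg_apply, PiLp.single_eq_same, norm_eq_abs] at t1 t2 hy ⊢
      linarith [le_abs_self (y 0 - -(e k / 4)), neg_abs_le (y 0 - e j / 4), a_sq j, e_pos j]).2.1
    rw [Real.dist_eq, abs_lt] at d1 d2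
    rw [abs_le] at u1
    linarith

end Pool.Agent.Results.MP_89b2fa_an.Discont
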